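import Mathlib
import Pool.Agent.MP_2c58a9_co.Lin4
import Pool.Agent.MP_2c58a9_co.Balls

/-!
A separated family of `n` stubby compact convex sets in three-space has at most `C n` geometric
permutations of plane transversals.
-/

namespace Pool.Agent.Results.MP_2c58a9_co.LinearBound

open Pool.Agent.MP_2c58a9_co

theorem result (ρ : ℝ) : ∃ C : ℕ, ∀ n : ℕ, 1 ≤ n → ∀ a : Fin n → Set E3,
    (∀ i, IsCompact (a i) ∧ Convex ℝ (a i) ∧ Stubby ρ (a i)) → Separated a →
      (geomPerms a).ncard ≤ C * n :=
  upper ρ

/-- Not part of the hand-in: the linear order is attained by unit balls (the construction of the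
hand-in UnitBalls). -/
theorem sharp (n : ℕ) (hn : 3 ≤ n) : ∃ c : Fin n → E3,
    Separated (fun i => Metric.closedBall (c i) 1) ∧
      n - 2 ≤ (geomPerms (fun i => Metric.closedBall (c i) 1)).ncard := by
  obtain ⟨m, rfl⟩ : ∃ m, n = m + 2 := ⟨n - 2, by omega⟩
  exact lower m (by omega)

end Pool.Agent.Results.MP_2c58a9_co.LinearBound
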